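import Pool.Agent.Helper24.OR.SPa
import Pool.Agent.Helper62.OP.IncLoss

/-!
# OR, block SP: the small parts of the field
-/

set_option autoImplicit false
open MeasureTheory Set Filter Topology
open Pool.Agent.Helper93.UG (zc sp)
open Pool.Agent.Helper57.TX (QX)
open Pool.Agent.Helper93.NS (mem_QX)
open Pool.Agent.Helper62.OP (DC Xo Ms pr Rng)
open Pool.Agent.Helper93.OR

namespace Pool.Agent.Helper24.OR

/-- the field is the whole sum -/
lemma Yn_eq {n : ℕ} {T L t x : ℝ} : Yn n T L t x = DD n T L (QX (Xn n T L)) t x := by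
  unfold Yn Pool.Agent.Helper62.OP.Pp DD DC
  rw [Complex.re_sum, Finset.mul_sum]
  refine Finset.sum_congr rfl fun p hp => ?_
  have hp' : p ∈ QX (Xn n T L) := hp
  rw [mem_QX] at hp'
  have hp0 : (0 : ℝ) < p := by exact_mod_cast hp'.1.pos
  have h0 : (p : ℂ) ≠ 0 := by exact_mod_cast hp'.1.ne_zero
  obtain ⟨u, hu⟩ : ∃ u : ℝ, u = t + x * sp T := ⟨_, rfl⟩
  rw [← hu]
  have h1 : (p : ℂ) ^ (-((1 / 2 : ℂ) + (u : ℂ) * Complex.I)) =
      ((Real.sqrt p)⁻¹ : ℝ) * Complex.exp (((-(u * Real.log p) : ℝ) : ℂ) * Complex.I) := by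
    have e1 : (Real.sqrt p)⁻¹ = Real.exp (-(1 / 2) * Real.log p) := by
      rw [Real.sqrt_eq_rpow, ← Real.rpow_neg hp0.le, Real.rpow_def_of_pos hp0]
      congr 1
      ring
    rw [e1, Complex.ofReal_exp, ← Complex.exp_add, Complex.cpow_def_of_ne_zero h0, ← Complex.natCast_log]
    congr 1
    push_cast
    ring
  rw [h1]
  unfold w0
  obtain ⟨P, hP⟩ : ∃ P : ℝ, P = pr (dd n / 100) T (RR n L) L p := ⟨_, rfl⟩
  rw [← hP]
  have h2 : -(Complex.I / (Real.pi : ℂ)) * (P : ℂ) * (((Real.sqrt p)⁻¹ : ℝ) * Complex.exp (((-(u * Real.log p) : ℝ) : ℂ) * Complex.I)) =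
      ((P * (Real.sqrt p)⁻¹ / Real.pi : ℝ) : ℂ) * (-Complex.I * Complex.exp (((-(u * Real.log p) : ℝ) : ℂ) * Complex.I)) := by
    push_cast
    ring
  rw [h2, Complex.re_ofReal_mul, Complex.mul_re, Complex.exp_ofReal_mul_I_re, Complex.exp_ofReal_mul_I_im]
  simp only [Complex.neg_re, Complex.I_re, Complex.neg_im, Complex.I_im, Real.sin_neg]
  ring

/-- one term -/
noncomputable def gg (n : ℕ) (T L t x : ℝ) (p : ℕ) : ℝ :=
  (w0 n T L p * (p : ℂ) ^ (-((1 / 2 : ℂ) + ((t + x * sp T : ℝ) : ℂ) * Complex.I))).re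

lemma DD_sum {n : ℕ} {T L t x : ℝ} (Q : Finset ℕ) : DD n T L Q t x = ∑ p ∈ Q, gg n T L t x p := by
  unfold DD DC gg
  rw [Complex.re_sum]

lemma An_mono {n q : ℕ} {T L : ℝ} (hT : 1 ≤ T) (hL : 1 ≤ L) {i j : ℕ} (hij : i ≤ j) : An n q T L i ≤ An n q T L j := by
  unfold An
  refine mul_le_mul_of_nonneg_left (Real.rpow_le_rpow_of_exponent_le hL ?_) (Real.log_nonneg hT)
  have : (i : ℝ) ≤ j := by exact_mod_cast hij
  have := div_le_div_of_nonneg_right this (by positivity : (0 : ℝ) ≤ (n : ℝ) * q)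
  linarith

lemma lev_sum {n q : ℕ} {T L : ℝ} (hT : 1 ≤ T) (hL : 1 ≤ L) (g : ℕ → ℝ) (J : ℕ) :
    ∑ j ∈ Finset.Icc 1 J, ∑ p ∈ lev n q T L j, g p =
      ∑ p ∈ (QX (Xn n T L)).filter (fun p : ℕ => An n q T L 0 < Real.log p ∧ Real.log p ≤ An n q T L J), g p := by
  classical
  induction J with
  | zero =>
    rw [Finset.Icc_eq_empty (by norm_num), Finset.sum_empty, Finset.filter_eq_empty_iff.mpr, Finset.sum_empty]
    rintro p _ ⟨h1, h2⟩
    exact absurd h2 (not_le.mpr h1)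
  | succ J ih =>
    rw [Finset.sum_Icc_succ_top (by omega), ih]
    unfold lev
    rw [← Finset.sum_union]
    · refine Finset.sum_congr ?_ fun _ _ => rfl
      ext p
      rw [Finset.mem_union, Finset.mem_filter, Finset.mem_filter, Finset.mem_filter, Nat.add_sub_cancel]
      have m0 := An_mono (n := n) (q := q) hT hL (Nat.zero_le J)
      have m1 := An_mono (n := n) (q := q) hT hL (Nat.le_succ J)
      constructor
      · rintro (⟨h1, h2, h3⟩ | ⟨h1, h2, h3⟩)
        · exact ⟨h1, h2, h3.trans m1⟩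
        · exact ⟨h1, lt_of_le_of_lt m0 h2, h3⟩
      · rintro ⟨h1, h2, h3⟩
        by_cases h : Real.log p ≤ An n q T L J
        · exact Or.inl ⟨h1, h2, h⟩
        · exact Or.inr ⟨h1, not_le.mp h, h3⟩
    · rw [Finset.disjoint_filter]
      rintro p _ ⟨_, h2⟩ ⟨h3, _⟩
      rw [Nat.add_sub_cancel] at h3
      exact absurd h2 (not_le.mpr h3)

/-- the primes which are not low -/
noncomputable def nlow (n : ℕ) (T L : ℝ) : Finset ℕ := (QX (Xn n T L)).filter fun p => ¬ Real.log p ≤ Real.log T * L ^ (-1 : ℝ)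

/-- levels 1 to 4 -/
noncomputable def l14 (n q : ℕ) (T L : ℝ) : Finset ℕ :=
  (QX (Xn n T L)).filter (fun p : ℕ => An n q T L 0 < Real.log p ∧ Real.log p ≤ An n q T L 4)

lemma An_zero {n q : ℕ} {T L : ℝ} : An n q T L 0 = Real.log T * L ^ (-1 : ℝ) := by
  unfold An
  simp

lemma An_JJ {n q : ℕ} {T L : ℝ} (hn : 4 ≤ n) (hq : 5 ≤ q) : An n q T L (JJ n q) = Real.log T * L ^ (-(2 * dd n)) := by
  unfold An JJ dd
  congr 2
  have h1 : (n : ℝ) ≠ 0 := by positivity
  have h2 : (q : ℝ) ≠ 0 := by positivity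
  have h3 : (((n - 2) * q : ℕ) : ℝ) = ((n : ℝ) - 2) * q := by
    rw [Nat.cast_mul, Nat.cast_sub (by omega)]
    norm_num
  rw [h3]
  field_simp
  ring

/-- the decomposition -/
lemma split {n q : ℕ} (hn : 4 ≤ n) (hq : 5 ≤ q) {T L : ℝ} (hT : 1 ≤ T) (hL : 1 ≤ L) (t x : ℝ) :
    Yn n T L t x - Yn n T L t 0 - Sm n q T L t x =
      (DD n T L (low n T L) t x - DD n T L (low n T L) t 0) + DD n T L (l14 n q T L) t x + DD n T L (fin n T L) t x -
        DD n T L (nlow n T L) t 0 := by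
  classical
  have h1 : ∀ y, Yn n T L t y = DD n T L (low n T L) t y + DD n T L (nlow n T L) t y := by
    intro y
    rw [Yn_eq, DD_sum, DD_sum, DD_sum]
    exact (Finset.sum_filter_add_sum_filter_not _ _ _).symm
  have h2 : DD n T L (nlow n T L) t x =
      ∑ p ∈ (QX (Xn n T L)).filter (fun p : ℕ => An n q T L 0 < Real.log p ∧ Real.log p ≤ An n q T L (JJ n q)), gg n T L t x p +
        DD n T L (fin n T L) t x := by
    rw [DD_sum, DD_sum]
    unfold fin
    rw [← An_JJ hn hq, ← Finset.sum_union]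
    · refine Finset.sum_congr ?_ fun _ _ => rfl
      unfold nlow
      rw [← An_zero (n := n) (q := q)]
      have m0 := An_mono (n := n) (q := q) hT hL (Nat.zero_le (JJ n q))
      ext p
      rw [Finset.mem_union, Finset.mem_filter, Finset.mem_filter, Finset.mem_filter, not_le]
      constructor
      · rintro ⟨a1, a2⟩
        by_cases h : Real.log p ≤ An n q T L (JJ n q)
        · exact Or.inl ⟨a1, a2, h⟩
        · exact Or.inr ⟨a1, not_le.mp h⟩
      · rintro (⟨a1, a2, _⟩ | ⟨a1, a2⟩)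
        · exact ⟨a1, a2⟩
        · exact ⟨a1, lt_of_le_of_lt m0 a2⟩
    · rw [Finset.disjoint_filter]
      rintro p _ ⟨_, a2⟩ a3
      exact absurd a2 (not_le.mpr a3)
  have h3 : ∑ j ∈ Finset.Icc 1 (JJ n q), ∑ p ∈ lev n q T L j, gg n T L t x p =
      DD n T L (l14 n q T L) t x + Sm n q T L t x := by
    have hJ : 4 ≤ JJ n q := by
      unfold JJ
      calc 4 ≤ 2 * 5 := by norm_num
        _ ≤ (n - 2) * q := Nat.mul_le_mul (by omega) hq
    have e1 : Finset.Icc 1 (JJ n q) = Finset.Icc 1 4 ∪ Finset.Icc 5 (JJ n q) := by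
      ext j
      rw [Finset.mem_union, Finset.mem_Icc, Finset.mem_Icc, Finset.mem_Icc]
      omega
    have e2 : Disjoint (Finset.Icc 1 4) (Finset.Icc 5 (JJ n q)) := by
      rw [Finset.disjoint_left]
      intro j hj hj2
      rw [Finset.mem_Icc] at hj hj2
      omega
    rw [e1, Finset.sum_union e2, lev_sum hT hL]
    congr 1
    · rw [DD_sum]
      rfl
    · unfold Sm
      refine Finset.sum_congr rfl fun j _ => ?_
      rw [DD_sum]
  rw [lev_sum hT hL] at h3
  rw [h1 x, h1 0, h2, h3]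
  ring


lemma dd_pos {n : ℕ} (hn : 4 ≤ n) : 0 < dd n ∧ dd n ≤ 1 / 4 := by
  unfold dd
  have : (4 : ℝ) ≤ n := by exact_mod_cast hn
  exact ⟨by positivity, one_div_le_one_div_of_le (by norm_num) this⟩

/-- the range of the parameters -/
lemma rng_of {n : ℕ} (hn : 4 ≤ n) {δ T L : ℝ} (hnd : 1 / n ≤ δ) (hT : 1 ≤ Real.log T) (hL : 1 ≤ L)
    (h : L ≤ Real.log T ^ (1 - δ)) : Rng (dd n) T (RR n L) L := by
  obtain ⟨hd, hd1⟩ := dd_pos hn
  refine ⟨h.trans (Real.rpow_le_rpow_of_exponent_le hT ?_), le_rfl, Real.rpow_le_rpow_of_exponent_le hL (by linarith)⟩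
  unfold dd
  linarith

lemma basic {n : ℕ} (hn : 4 ≤ n) {δ T L : ℝ} (hδ : 0 < δ) (hnd : 1 / n ≤ δ) (hT : 1 ≤ Real.log T) (hL : 1 ≤ L)
    (h : L ≤ Real.log T ^ (1 - δ)) : L ≤ Real.log T ∧ 0 < Xn n T L ∧ Xn n T L ≤ Real.log T ∧
      Xn n T L * L ^ (dd n / 2) ≤ Real.log T := by
  obtain ⟨hd, hd1⟩ := dd_pos hn
  obtain ⟨h1, h2, h3, h4⟩ := Pool.Agent.Helper62.OP.ms_range (k := dd n / 100) (by positivity) le_rfl hd (by linarith) hL
    (rng_of hn hnd hT hL h)
  have hLT : L ≤ Real.log T := by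
    refine h.trans ?_
    calc Real.log T ^ (1 - δ) ≤ Real.log T ^ (1 : ℝ) := Real.rpow_le_rpow_of_exponent_le hT (by linarith)
      _ = Real.log T := Real.rpow_one _
  have hp : 1 ≤ L ^ (dd n / 2) := Real.one_le_rpow hL (by positivity)
  have hM : 0 < Ms (dd n / 100) (RR n L) L := by linarith
  have hX : Xn n T L = Real.log T / Ms (dd n / 100) (RR n L) L := rfl
  have hlT : 0 < Real.log T := by linarith
  refine ⟨hLT, by rw [hX]; positivity, ?_, ?_⟩
  · rw [hX]
    exact div_le_self hlT.le (hp.trans h1)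
  · rw [hX, div_mul_eq_mul_div, div_le_iff₀ hM]
    exact mul_le_mul_of_nonneg_left h1 hlT.le

/-- the four variances -/
lemma vars : ∃ E : ℝ, 0 < E ∧ ∀ (n q : ℕ), 4 ≤ n → 5 ≤ q → ∀ δ T L : ℝ, 0 < δ → 1 / n ≤ δ → 1 < T → 1 ≤ Real.log T → 1 ≤ L →
    L ≤ Real.log T ^ (1 - δ) →
    (∀ x : ℝ, |x| ≤ L → VV (low n T L) (wl n T L x) ≤ E) ∧
    (∀ x : ℝ, VV (l14 n q T L) (wx n T L x) ≤ 1 / Real.pi ^ 2 * (4 / (n * q) * Real.log L + E)) ∧
    (∀ x : ℝ, VV (fin n T L) (wx n T L x) ≤ 1 / Real.pi ^ 2 * (2 * dd n * Real.log L + E)) ∧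
    (∀ x : ℝ, VV (nlow n T L) (wx n T L x) ≤ 1 / Real.pi ^ 2 * (Real.log L + E)) := by
  obtain ⟨E1, hE1, H1⟩ := recip_sub
  obtain ⟨E2, hE2, H2⟩ := Pool.Agent.Helper82.NS.mert_small
  refine ⟨max E1 (4 * (1 + E2)), lt_max_of_lt_left hE1, fun n q hn hq δ T L hδ hnd hT hlT hL h => ?_⟩
  obtain ⟨hd, hd1⟩ := dd_pos hn
  obtain ⟨hLT, hX0, hXT, -⟩ := basic hn hδ hnd hlT hL h
  have hL0 : 0 < L := by linarith
  have hlT0 : 0 < Real.log T := by linarith
  have hE : E1 ≤ max E1 (4 * (1 + E2)) := le_max_left _ _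
  have hpi : 0 ≤ 1 / Real.pi ^ 2 := by positivity
  have hinv : L ^ (-1 : ℝ) = L⁻¹ := by rw [Real.rpow_neg_one]
  have hA1 : 1 ≤ Real.log T * L ^ (-1 : ℝ) := by
    rw [hinv, ← div_eq_mul_inv, one_le_div hL0]
    exact hLT
  -- a window of primes
  have hgen : ∀ (u v : ℝ) (Q : Finset ℕ), -1 ≤ u → u ≤ v → Q ⊆ QX (Xn n T L) →
      (∀ p ∈ Q, Real.log T * L ^ u < Real.log p ∧ Real.log p ≤ Real.log T * L ^ v) → ∀ x : ℝ,
      VV Q (wx n T L x) ≤ 1 / Real.pi ^ 2 * ((v - u) * Real.log L + max E1 (4 * (1 + E2))) := by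
    intro u v Q hu huv hQ hQ2 x
    have hpu : 0 < L ^ u := Real.rpow_pos_of_pos hL0 _
    refine (VV_le hQ).trans (mul_le_mul_of_nonneg_left ?_ hpi)
    have h1 := H1 (Real.log T * L ^ u) (Real.log T * L ^ v) (hA1.trans (mul_le_mul_of_nonneg_left
      (Real.rpow_le_rpow_of_exponent_le hL hu) hlT0.le)) (mul_le_mul_of_nonneg_left
      (Real.rpow_le_rpow_of_exponent_le hL huv) hlT0.le) Q fun p hp => ⟨(mem_QX.mp (hQ hp)).1, hQ2 p hp⟩
    have h2 : Real.log (Real.log T * L ^ v / (Real.log T * L ^ u)) = (v - u) * Real.log L := by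
      rw [mul_div_mul_left _ _ hlT0.ne', ← Real.rpow_sub hL0, Real.log_rpow hL0]
    rw [h2] at h1
    linarith
  refine ⟨fun x hx => ?_, fun x => ?_, fun x => ?_, fun x => ?_⟩
  · refine le_trans ?_ (le_max_right _ _)
    obtain ⟨A, hA⟩ : ∃ A, A = Real.log T * L ^ (-1 : ℝ) := ⟨_, rfl⟩
    rw [← hA] at hA1
    have hA0 : 0 < A := by linarith
    have h3 : ∀ p ∈ low n T L, ‖wl n T L x p‖ ^ 2 / p ≤ 4 / A * (Real.log p / p) := by
      intro p hp
      unfold low at hp
      rw [Finset.mem_filter, ← hA] at hp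
      have hpp := (mem_QX.mp hp.1).1
      have hp0 : (0 : ℝ) < p := by exact_mod_cast hpp.pos
      have hl0 : 0 ≤ Real.log p := Real.log_natCast_nonneg p
      have h4 := norm_wl (x := x) hp.1 hT
      have h5 : 2 * |x| * Real.log p / Real.log T ≤ 2 * (Real.log p / A) := by
        have e1 : Real.log p / A = L * Real.log p / Real.log T := by
          rw [hA, hinv]
          field_simp
        rw [e1]
        rw [← mul_div_assoc, ← mul_assoc]
        exact div_le_div_of_nonneg_right (mul_le_mul_of_nonneg_right (by linarith) hl0) hlT0.le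
      have h6 : 0 ≤ Real.log p / A := by positivity
      have h7 : Real.log p / A ≤ 1 := by
        rw [div_le_one hA0]
        exact hp.2
      have h8 : ‖wl n T L x p‖ ^ 2 ≤ 4 * (Real.log p / A) := by
        calc ‖wl n T L x p‖ ^ 2 ≤ (2 * (Real.log p / A)) ^ 2 := pow_le_pow_left₀ (norm_nonneg _) (h4.trans h5) 2
          _ = 4 * ((Real.log p / A) * (Real.log p / A)) := by ring
          _ ≤ 4 * ((Real.log p / A) * 1) := by gcongr
          _ = _ := by ring
      calc ‖wl n T L x p‖ ^ 2 / p ≤ 4 * (Real.log p / A) / p := div_le_div_of_nonneg_right h8 hp0.le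
        _ = 4 / A * (Real.log p / p) := by
          field_simp
    unfold VV
    refine (Finset.sum_le_sum h3).trans ?_
    rw [← Finset.mul_sum]
    have h4 : ∑ p ∈ low n T L, Real.log p / p ≤ A + E2 := by
      refine le_trans (Finset.sum_le_sum_of_subset_of_nonneg (fun p hp => ?_) fun p _ _ => ?_) (H2 A hA0.le)
      · unfold low at hp
        rw [Finset.mem_filter, ← hA] at hp
        rw [mem_QX]
        exact ⟨(mem_QX.mp hp.1).1, hp.2⟩
      · have : 0 ≤ Real.log p := Real.log_natCast_nonneg p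
        positivity
    calc 4 / A * ∑ p ∈ low n T L, Real.log p / p ≤ 4 / A * (A + E2) := mul_le_mul_of_nonneg_left h4 (by positivity)
      _ = 4 + 4 * (E2 / A) := by field_simp
      _ ≤ 4 * (1 + E2) := by
        have : E2 / A ≤ E2 := div_le_self hE2.le hA1
        linarith
  · have hnq : (0 : ℝ) < (n : ℝ) * q := by
      have : (0 : ℝ) < n := by exact_mod_cast (by omega : 0 < n)
      have : (0 : ℝ) < q := by exact_mod_cast (by omega : 0 < q)
      positivity
    have h1 := hgen (-1) (-1 + 4 / (n * q)) (l14 n q T L) le_rfl (by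
      have : (0 : ℝ) ≤ 4 / (n * q) := by positivity
      linarith) (Finset.filter_subset _ _) (fun p hp => by
        unfold l14 at hp
        rw [Finset.mem_filter, An_zero] at hp
        exact ⟨hp.2.1, by
          have := hp.2.2
          unfold An at this
          push_cast at this
          exact this⟩) x
    have e1 : (-1 + 4 / ((n : ℝ) * q) - -1) = 4 / (n * q) := by ring
    rw [e1] at h1
    exact h1
  · have h1 := hgen (-(2 * dd n)) 0 (fin n T L) (by linarith) (by linarith) (Finset.filter_subset _ _) (fun p hp => by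
        unfold fin at hp
        rw [Finset.mem_filter] at hp
        refine ⟨hp.2, ?_⟩
        rw [Real.rpow_zero, mul_one]
        exact (mem_QX.mp hp.1).2.trans hXT) x
    have e1 : (0 - -(2 * dd n)) = 2 * dd n := by ring
    rw [e1] at h1
    exact h1
  · have h1 := hgen (-1) 0 (nlow n T L) le_rfl (by norm_num) (Finset.filter_subset _ _) (fun p hp => by
        unfold nlow at hp
        rw [Finset.mem_filter, not_le] at hp
        refine ⟨hp.2, ?_⟩
        rw [Real.rpow_zero, mul_one]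
        exact (mem_QX.mp hp.1).2.trans hXT) x
    have e1 : ((0 : ℝ) - -1) * Real.log L = Real.log L := by ring
    rw [e1] at h1
    exact h1

end Pool.Agent.Helper24.OR
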