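import Pool.Agent.Helper93.OR.Defs
import Pool.Agent.Helper28.OR.TA
import Pool.Agent.Helper82.OP.Var

/-!
# OR, block SP: the small parts of the field: variances
-/

set_option autoImplicit false
open MeasureTheory Set Filter Topology
open Pool.Agent.Helper93.UG (zc sp)
open Pool.Agent.Helper57.TX (QX)
open Pool.Agent.Helper93.NS (mem_QX)
open Pool.Agent.Helper62.OP (DC Xo Ms pr Rng)
open Pool.Agent.Helper93.OR

namespace Pool.Agent.Helper24.OR

/-- reciprocals of the primes in a range, from above, for subsets -/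
lemma recip_sub : ∃ E : ℝ, 0 < E ∧ ∀ a b : ℝ, 1 ≤ a → a ≤ b → ∀ P : Finset ℕ,
    (∀ p ∈ P, p.Prime ∧ a < Real.log p ∧ Real.log p ≤ b) → ∑ p ∈ P, 1 / (p:ℝ) ≤ Real.log (b / a) + E := by
  classical
  obtain ⟨E, hE, H⟩ := Pool.Agent.Helper82.OPT.recip_up
  refine ⟨E, hE, fun a b ha hab P hP => ?_⟩
  refine le_trans ?_ (H a b ha hab ((QX b).filter fun p => a < Real.log p) fun p => ?_)
  · refine Finset.sum_le_sum_of_subset_of_nonneg (fun p hp => ?_) fun p _ _ => by positivity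
    obtain ⟨h1, h2, h3⟩ := hP p hp
    rw [Finset.mem_filter, mem_QX]
    exact ⟨⟨h1, h3⟩, h2⟩
  · rw [Finset.mem_filter, mem_QX]
    constructor
    · rintro ⟨⟨h1, h2⟩, h3⟩
      exact ⟨h1, h3, h2⟩
    · rintro ⟨h1, h2, h3⟩
      exact ⟨⟨h1, h3⟩, h2⟩

lemma norm_w0 {n : ℕ} {T L : ℝ} {p : ℕ} (hp : p ∈ QX (Xn n T L)) : ‖w0 n T L p‖ ≤ 1 / Real.pi := by
  rw [mem_QX] at hp
  have h0 : 0 ≤ Real.log p := Real.log_natCast_nonneg p
  have hlog : 0 < Real.log p := Real.log_pos (by exact_mod_cast hp.1.one_lt)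
  have hX : 0 < Xn n T L := by linarith [hp.2]
  have h1 : 0 ≤ Real.log p / Xn n T L := by positivity
  have h2 : Real.log p / Xn n T L ≤ 1 := by
    rw [div_le_one hX]
    exact hp.2
  have h3 : pr (dd n / 100) T (RR n L) L p ≤ 1 := by
    have : pr (dd n / 100) T (RR n L) L p = (1 - Real.log p / Xn n T L) ^ 2 := rfl
    rw [this]
    exact pow_le_one₀ (by linarith) (by linarith)
  have h4 : 0 ≤ pr (dd n / 100) T (RR n L) L p := by
    unfold pr
    positivity
  unfold w0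
  rw [norm_mul, norm_neg, norm_div, Complex.norm_I, Complex.norm_real, Complex.norm_real, Real.norm_eq_abs, Real.norm_eq_abs,
    abs_of_pos Real.pi_pos, abs_of_nonneg h4]
  exact mul_le_of_le_one_right (by have := Real.pi_pos; positivity) h3

/-- the coefficients of the shifted form -/
noncomputable def wx (n : ℕ) (T L x : ℝ) (p : ℕ) : ℂ :=
  w0 n T L p * Complex.exp (-((x * sp T * Real.log p : ℝ) : ℂ) * Complex.I)

lemma norm_wx {n : ℕ} {T L x : ℝ} {p : ℕ} (hp : p ∈ QX (Xn n T L)) : ‖wx n T L x p‖ ≤ 1 / Real.pi := by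
  unfold wx
  rw [norm_mul]
  have : ‖Complex.exp (-((x * sp T * Real.log p : ℝ) : ℂ) * Complex.I)‖ = 1 := by
    rw [← Complex.ofReal_neg, Complex.norm_exp_ofReal_mul_I]
  rw [this, mul_one]
  exact norm_w0 hp

lemma DD_eq {n : ℕ} {T L : ℝ} {Q : Finset ℕ} (hQ : ∀ p ∈ Q, p.Prime) (t x : ℝ) :
    DD n T L Q t x = (DC Q (wx n T L x) t).re := by
  unfold DD DC
  congr 1
  refine Finset.sum_congr rfl fun p hp => ?_
  have h0 : (p : ℂ) ≠ 0 := by exact_mod_cast (hQ p hp).ne_zero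
  unfold wx
  rw [mul_assoc, Complex.cpow_def_of_ne_zero h0, Complex.cpow_def_of_ne_zero h0, ← Complex.exp_add, ← Complex.natCast_log]
  congr 2
  push_cast
  ring

lemma VV_le {n : ℕ} {T L x : ℝ} {Q : Finset ℕ} (hQ : Q ⊆ QX (Xn n T L)) :
    VV Q (wx n T L x) ≤ 1 / Real.pi ^ 2 * ∑ p ∈ Q, 1 / (p : ℝ) := by
  unfold VV
  rw [Finset.mul_sum]
  refine Finset.sum_le_sum fun p hp => ?_
  rw [mul_one_div]
  refine div_le_div_of_nonneg_right ?_ (Nat.cast_nonneg p)
  have h1 := norm_wx (x := x) (hQ hp)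
  calc ‖wx n T L x p‖ ^ 2 ≤ (1 / Real.pi) ^ 2 := pow_le_pow_left₀ (norm_nonneg _) h1 2
    _ = 1 / Real.pi ^ 2 := by rw [div_pow, one_pow]

/-- the coefficients of the increment of the low part -/
noncomputable def wl (n : ℕ) (T L x : ℝ) (p : ℕ) : ℂ := wx n T L x p - wx n T L 0 p

lemma low_eq {n : ℕ} {T L : ℝ} {Q : Finset ℕ} (hQ : ∀ p ∈ Q, p.Prime) (t x : ℝ) :
    DD n T L Q t x - DD n T L Q t 0 = (DC Q (wl n T L x) t).re := by
  rw [DD_eq hQ, DD_eq hQ, ← Complex.sub_re]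
  congr 1
  unfold DC wl
  rw [← Finset.sum_sub_distrib]
  refine Finset.sum_congr rfl fun p _ => ?_
  ring

lemma norm_wl {n : ℕ} {T L x : ℝ} {p : ℕ} (hp : p ∈ QX (Xn n T L)) (hT : 1 < T) :
    ‖wl n T L x p‖ ≤ 2 * |x| * Real.log p / Real.log T := by
  have hlT : 0 < Real.log T := Real.log_pos hT
  have hsp : 0 ≤ sp T := by
    unfold sp
    have := Real.pi_pos
    positivity
  have hl : 0 ≤ Real.log p := Real.log_natCast_nonneg p
  unfold wl wx
  rw [← mul_sub, norm_mul]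
  have h1 : ‖Complex.exp (-((x * sp T * Real.log p : ℝ) : ℂ) * Complex.I) - Complex.exp (-((0 * sp T * Real.log p : ℝ) : ℂ) * Complex.I)‖ ≤
      |x| * sp T * Real.log p := by
    have h2 := Real.norm_exp_I_mul_ofReal_sub_one_le (x := -(x * sp T * Real.log p))
    have e1 : Complex.exp (-((0 * sp T * Real.log p : ℝ) : ℂ) * Complex.I) = 1 := by simp
    rw [e1, ← Complex.ofReal_neg, mul_comm]
    refine h2.trans (le_of_eq ?_)
    rw [Real.norm_eq_abs, abs_neg, abs_mul, abs_mul, abs_of_nonneg hl, abs_of_nonneg hsp]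
  calc _ ≤ 1 / Real.pi * (|x| * sp T * Real.log p) := mul_le_mul (norm_w0 hp) h1 (norm_nonneg _) (by have := Real.pi_pos; positivity)
    _ = 2 * |x| * Real.log p / Real.log T := by
      unfold sp
      have := Real.pi_pos
      field_simp

end Pool.Agent.Helper24.OR
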