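import Pool.Agent.Helper24.OR.SP

/-!
# OR, block SP: the small parts of the field at the integers
-/

set_option autoImplicit false
open MeasureTheory Set Filter Topology
open Pool.Agent.Helper93.UG (zc sp)
open Pool.Agent.Helper57.TX (QX)
open Pool.Agent.Helper93.NS (mem_QX)
open Pool.Agent.Helper62.OP (DC Xo Ms pr Rng)
open Pool.Agent.Helper93.OR

namespace Pool.Agent.Helper24.OR

/-- the integers in `[-L, L]` -/
noncomputable def II (L : ℝ) : Finset ℤ := Finset.Icc (-⌊L⌋) ⌊L⌋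

lemma mem_II {L : ℝ} {i : ℤ} : i ∈ II L ↔ |(i : ℝ)| ≤ L := by
  unfold II
  rw [Finset.mem_Icc, abs_le]
  constructor
  · rintro ⟨h1, h2⟩
    have h3 := Int.le_floor.mp h2
    have h4 : -i ≤ ⌊L⌋ := by omega
    have h5 := Int.le_floor.mp h4
    push_cast at h5
    constructor <;> linarith
  · rintro ⟨h1, h2⟩
    have h3 := Int.le_floor.mpr h2
    have h4 : -i ≤ ⌊L⌋ := Int.le_floor.mpr (by push_cast; linarith)
    constructor <;> omega

lemma card_II {L : ℝ} (hL : 1 ≤ L) : ((II L).card : ℝ) ≤ 3 * L := by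
  unfold II
  rw [Int.card_Icc]
  have h0 : 0 ≤ ⌊L⌋ := Int.floor_nonneg.mpr (by linarith)
  have h1 : ((⌊L⌋ + 1 - -⌊L⌋).toNat : ℝ) = 2 * (⌊L⌋ : ℝ) + 1 := by
    have : (((⌊L⌋ + 1 - -⌊L⌋).toNat : ℤ) : ℝ) = ((⌊L⌋ + 1 - -⌊L⌋ : ℤ) : ℝ) := by rw [Int.toNat_of_nonneg (by omega)]
    rw [Int.cast_natCast] at this
    rw [this]
    push_cast
    ring
  rw [h1]
  have := Int.floor_le L
  linarith

/-- the bad sets of the three families -/
lemma num1 {L : ℝ} (hL : 1 ≤ L) {T : ℝ} (hT : 0 ≤ T) {c : ℝ} (hc : c ≤ 1) {N : ℝ} (hN : N ≤ 3 * L) :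
    N * (16 * (1 + 3 * Real.log L) * Real.exp (-(3 * Real.log L))) * T ≤ 192 * L ^ (-c) * T := by
  have hL0 : 0 < L := by linarith
  have h0 := Real.log_nonneg hL
  have h1 : Real.exp (-(3 * Real.log L)) = L ^ (-3 : ℝ) := by
    rw [Real.rpow_def_of_pos hL0]
    congr 1
    ring
  have h2 : Real.log L ≤ L - 1 := Real.log_le_sub_one_of_pos hL0
  refine mul_le_mul_of_nonneg_right ?_ hT
  rw [h1]
  have h3 : 1 + 3 * Real.log L ≤ 4 * L := by linarith
  have h4 : 0 < L ^ (-3 : ℝ) := Real.rpow_pos_of_pos hL0 _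
  have h5 : L * L * L ^ (-3 : ℝ) = L ^ (-1 : ℝ) := by
    rw [← pow_two, ← Real.rpow_natCast, ← Real.rpow_add hL0]
    norm_num
  calc N * (16 * (1 + 3 * Real.log L) * L ^ (-3 : ℝ)) ≤ (3 * L) * (16 * (4 * L) * L ^ (-3 : ℝ)) := by
        refine mul_le_mul hN ?_ (by positivity) (by positivity)
        gcongr
    _ = 192 * (L * L * L ^ (-3 : ℝ)) := by ring
    _ = 192 * L ^ (-1 : ℝ) := by rw [h5]
    _ ≤ 192 * L ^ (-c) := by
      refine mul_le_mul_of_nonneg_left ?_ (by norm_num)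
      exact Real.rpow_le_rpow_of_exponent_le hL (by linarith)

lemma num2 {L e : ℝ} (hL : 1 ≤ L) (he : 0 < e) {T : ℝ} (hT : 0 ≤ T) :
    16 * (1 + e ^ 2 * Real.log L) * Real.exp (-(e ^ 2 * Real.log L)) * T ≤ 48 * L ^ (-(e ^ 2 / 2)) * T := by
  have hL0 : 0 < L := by linarith
  have h0 := Real.log_nonneg hL
  refine mul_le_mul_of_nonneg_right ?_ hT
  have h1 : Real.exp (-(e ^ 2 * Real.log L)) = L ^ (-(e ^ 2 / 2)) * L ^ (-(e ^ 2 / 2)) := by
    rw [← Real.rpow_add hL0, Real.rpow_def_of_pos hL0]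
    congr 1
    ring
  have h2 : e ^ 2 * Real.log L ≤ 2 * L ^ (e ^ 2 / 2) := by
    have h3 := Real.add_one_le_exp (e ^ 2 / 2 * Real.log L)
    have h4 : Real.exp (e ^ 2 / 2 * Real.log L) = L ^ (e ^ 2 / 2) := by
      rw [Real.rpow_def_of_pos hL0]
      congr 1
      ring
    rw [h4] at h3
    linarith
  have h3 : 1 ≤ L ^ (e ^ 2 / 2) := Real.one_le_rpow hL (by positivity)
  have h4 : 0 < L ^ (-(e ^ 2 / 2)) := Real.rpow_pos_of_pos hL0 _
  have h5 : L ^ (e ^ 2 / 2) * L ^ (-(e ^ 2 / 2)) = 1 := by rw [← Real.rpow_add hL0]; simp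
  rw [h1]
  calc 16 * (1 + e ^ 2 * Real.log L) * (L ^ (-(e ^ 2 / 2)) * L ^ (-(e ^ 2 / 2))) ≤
      16 * (3 * L ^ (e ^ 2 / 2)) * (L ^ (-(e ^ 2 / 2)) * L ^ (-(e ^ 2 / 2))) := by
        refine mul_le_mul_of_nonneg_right ?_ (by positivity)
        linarith
    _ = 48 * (L ^ (e ^ 2 / 2) * L ^ (-(e ^ 2 / 2))) * L ^ (-(e ^ 2 / 2)) := by ring
    _ = 48 * L ^ (-(e ^ 2 / 2)) := by rw [h5, mul_one]

/-- the length of the sums -/
lemma len {n : ℕ} {T L a : ℝ} (hT : 0 < T) (hX : 0 < Xn n T L) (h : Xn n T L * L ^ (dd n / 2) ≤ Real.log T)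
    (ha : 16 * (a + 1) ≤ L ^ (dd n / 2)) : Real.exp (Xn n T L) ^ (a + 1) ≤ T ^ (1 / 16 : ℝ) := by
  rw [← Real.exp_mul, Real.rpow_def_of_pos hT]
  refine Real.exp_le_exp.mpr ?_
  have := mul_le_mul_of_nonneg_left ha hX.le
  linarith

lemma exp_mem {X : ℝ} {p : ℕ} (hp : p ∈ QX X) : p.Prime ∧ (p : ℝ) ≤ Real.exp X := by
  rw [mem_QX] at hp
  refine ⟨hp.1, ?_⟩
  have hp0 : (0 : ℝ) < p := by exact_mod_cast hp.1.pos
  rw [← Real.exp_log hp0]
  exact Real.exp_le_exp.mpr hp.2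

/-- SP -/
theorem sp_main {n q : ℕ} (hn : 4 ≤ n) (hq : 5 ≤ q) {δ e : ℝ} (hδ : 0 < δ) (hδ1 : δ ≤ 1) (hnd : 1 / n ≤ δ) (he : 0 < e)
    (he1 : e ≤ 1 / 4) (h1 : 2 / e ^ 2 ≤ q) (h2 : 1 / e ^ 2 ≤ n) : ∃ c C T₀ : ℝ, 0 < c ∧ 1 ≤ C ∧
    ∀ T L : ℝ, T₀ ≤ T → C ≤ L → L ≤ Real.log T ^ (1 - δ) →
    ∃ E : Set ℝ, volume E ≤ ENNReal.ofReal (C * L ^ (-c) * T) ∧ ∀ t ∈ Icc T (2 * T), t ∉ E → ∀ i : ℤ, |(i : ℝ)| ≤ L →
      |Yn n T L t i - Yn n T L t 0 - Sm n q T L t i| ≤ 4 * e * Real.log L := by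
  obtain ⟨T1, hT1, HT⟩ := Pool.Agent.Helper28.OR.tail_union
  obtain ⟨E, hE, HV⟩ := vars
  obtain ⟨hd, hd1⟩ := dd_pos hn
  have he2 : 0 < e ^ 2 := by positivity
  -- `L` large
  have ev1 : ∀ᶠ x : ℝ in atTop, 16 * (3 * Real.log x + 1) ≤ x ^ (dd n / 2) := by
    have h3 := (isLittleO_log_rpow_atTop (show 0 < dd n / 2 by positivity)).bound (show (0 : ℝ) < 1 / 96 by norm_num)
    have h4 := (tendsto_rpow_atTop (show 0 < dd n / 2 by positivity)).eventually_ge_atTop 32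
    filter_upwards [h3, h4, eventually_ge_atTop 1] with x hx1 hx2 hx3
    have hl := Real.log_nonneg hx3
    have hp : (0 : ℝ) < x ^ (dd n / 2) := Real.rpow_pos_of_pos (by linarith) _
    rw [Real.norm_eq_abs, Real.norm_eq_abs, abs_of_nonneg hl, abs_of_pos hp] at hx1
    linarith
  have ev2 : ∀ᶠ x : ℝ in atTop, 100 * E / e ^ 2 ≤ Real.log x := Real.tendsto_log_atTop.eventually_ge_atTop _
  have ev3 : ∀ᶠ x : ℝ in atTop, E ≤ Real.log x := Real.tendsto_log_atTop.eventually_ge_atTop _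
  obtain ⟨L0, hL0⟩ := eventually_atTop.mp ((ev1.and ev2).and ev3)
  refine ⟨e ^ 2 / 2, max (max L0 3) 624, max T1 3, by positivity, (by norm_num : (1 : ℝ) ≤ 624).trans (le_max_right _ _),
    fun T L hT hL hLT => ?_⟩
  obtain ⟨⟨l1, l2⟩, l3⟩ := hL0 L (((le_max_left _ _).trans (le_max_left _ _)).trans hL)
  have hL3 : 3 ≤ L := ((le_max_right _ _).trans (le_max_left _ _)).trans hL
  have hL1 : 1 ≤ L := by linarith
  have hLp : 0 < L := by linarith
  have hTT1 : T1 ≤ T := (le_max_left _ _).trans hT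
  have hT3 : 3 ≤ T := (le_max_right _ _).trans hT
  have hT0 : 0 < T := by linarith
  have hlT : 1 ≤ Real.log T := by
    rw [Real.le_log_iff_exp_le hT0]
    have := Real.exp_one_lt_d9
    linarith
  have hlogL : 0 < Real.log L := Real.log_pos (by linarith)
  obtain ⟨b1, b2, b3, b4⟩ := basic hn hδ hnd hlT hL1 hLT
  obtain ⟨v1, v2, v3, v4⟩ := HV n q hn hq δ T L hδ hnd (by linarith) hlT hL1 hLT
  have hY : 1 ≤ Real.exp (Xn n T L) := Real.one_le_exp b2.le
  have hpi : 9 ≤ Real.pi ^ 2 := by nlinarith [Real.pi_gt_three]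
  have hpi' : 1 / Real.pi ^ 2 ≤ 1 / 9 := one_div_le_one_div_of_le (by norm_num) hpi
  have hpi0 : 0 < 1 / Real.pi ^ 2 := by positivity
  have hEe : E ≤ e ^ 2 * Real.log L / 100 := by
    rw [div_le_iff₀ he2] at l2
    linarith
  have hn0 : (0 : ℝ) < n := by exact_mod_cast (by omega : 0 < n)
  have hn4 : (4 : ℝ) ≤ n := by exact_mod_cast hn
  have hq0 : (0 : ℝ) < q := by exact_mod_cast (by omega : 0 < q)
  have hq2 : 2 ≤ q * e ^ 2 := by rwa [div_le_iff₀ he2] at h1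
  have hn2 : 1 ≤ n * e ^ 2 := by rwa [div_le_iff₀ he2] at h2
  -- the variances are at most `V`
  obtain ⟨V, hV⟩ : ∃ V, V = e ^ 2 * Real.log L / 3 := ⟨_, rfl⟩
  have hV0 : 0 < V := by rw [hV]; positivity
  have k1 : ∀ x : ℝ, |x| ≤ L → VV (low n T L) (wl n T L x) ≤ V := by
    intro x hx
    refine (v1 x hx).trans ?_
    rw [hV]
    have : 0 < e ^ 2 * Real.log L := by positivity
    linarith
  have k2 : ∀ x : ℝ, VV (l14 n q T L) (wx n T L x) ≤ V := by
    intro x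
    refine (v2 x).trans ?_
    have h3 : 4 / ((n : ℝ) * q) ≤ e ^ 2 / 2 := by
      rw [div_le_div_iff₀ (by positivity) (by norm_num)]
      calc (4 : ℝ) * 2 ≤ n * (q * e ^ 2) := mul_le_mul hn4 hq2 (by norm_num) hn0.le
        _ = e ^ 2 * (n * q) := by ring
    have h4 : 4 / ((n : ℝ) * q) * Real.log L ≤ e ^ 2 / 2 * Real.log L := mul_le_mul_of_nonneg_right h3 hlogL.le
    have h5 : 0 ≤ 4 / ((n : ℝ) * q) * Real.log L + E := by positivity
    calc _ ≤ 1 / 9 * (4 / ((n : ℝ) * q) * Real.log L + E) := mul_le_mul_of_nonneg_right hpi' h5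
      _ ≤ V := by
        rw [hV]
        have : 0 < e ^ 2 * Real.log L := by positivity
        linarith
  have k3 : ∀ x : ℝ, VV (fin n T L) (wx n T L x) ≤ V := by
    intro x
    refine (v3 x).trans ?_
    have h3 : 2 * dd n ≤ 2 * e ^ 2 := by
      unfold dd
      have : 1 / (n : ℝ) ≤ e ^ 2 := by
        rw [div_le_iff₀ hn0]
        linarith
      linarith
    have h4 : 2 * dd n * Real.log L ≤ 2 * e ^ 2 * Real.log L := mul_le_mul_of_nonneg_right h3 hlogL.le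
    have h5 : 0 ≤ 2 * dd n * Real.log L + E := by positivity
    calc _ ≤ 1 / 9 * (2 * dd n * Real.log L + E) := mul_le_mul_of_nonneg_right hpi' h5
      _ ≤ V := by
        rw [hV]
        have : 0 < e ^ 2 * Real.log L := by positivity
        linarith
  have k4 : VV (nlow n T L) (wx n T L 0) ≤ Real.log L := by
    refine (v4 0).trans ?_
    calc _ ≤ 1 / 9 * (Real.log L + E) := mul_le_mul_of_nonneg_right hpi' (by positivity)
      _ ≤ Real.log L := by linarith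
  obtain ⟨H, hH⟩ : ∃ H, H = e * Real.log L := ⟨_, rfl⟩
  have hH0 : 0 < H := by rw [hH]; positivity
  have r1 : H ^ 2 / V = 3 * Real.log L := by
    rw [hH, hV]
    field_simp
  have r2 : H ^ 2 / Real.log L = e ^ 2 * Real.log L := by
    rw [hH]
    field_simp
  have le1 : Real.exp (Xn n T L) ^ (H ^ 2 / V + 1) ≤ T ^ (1 / 16 : ℝ) := by
    rw [r1]
    exact len hT0 b2 b4 l1
  have le2 : Real.exp (Xn n T L) ^ (H ^ 2 / Real.log L + 1) ≤ T ^ (1 / 16 : ℝ) := by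
    rw [r2]
    refine len hT0 b2 b4 (le_trans ?_ l1)
    have : e ^ 2 ≤ 3 := by nlinarith
    have := mul_le_mul_of_nonneg_right this hlogL.le
    linarith
  -- the four bad sets
  have g1 := HT T (Real.exp (Xn n T L)) hTT1 hY (II L) (fun _ => low n T L) (fun i => wl n T L i) H V
    (fun i _ p hp => exp_mem (Finset.mem_of_mem_filter p hp)) hH0 hV0 (fun i hi => k1 i (mem_II.mp hi)) le1
  have g2 := HT T (Real.exp (Xn n T L)) hTT1 hY (II L) (fun _ => l14 n q T L) (fun i => wx n T L i) H V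
    (fun i _ p hp => exp_mem (Finset.mem_of_mem_filter p hp)) hH0 hV0 (fun i _ => k2 i) le1
  have g3 := HT T (Real.exp (Xn n T L)) hTT1 hY (II L) (fun _ => fin n T L) (fun i => wx n T L i) H V
    (fun i _ p hp => exp_mem (Finset.mem_of_mem_filter p hp)) hH0 hV0 (fun i _ => k3 i) le1
  have g4 := HT T (Real.exp (Xn n T L)) hTT1 hY ({0} : Finset ℤ) (fun _ => nlow n T L) (fun _ => wx n T L 0) H (Real.log L)
    (fun i _ p hp => exp_mem (Finset.mem_of_mem_filter p hp)) hH0 hlogL (fun i _ => k4) le2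
  rw [r1] at g1 g2 g3
  rw [r2, Finset.card_singleton, Nat.cast_one, one_mul] at g4
  have hc : e ^ 2 / 2 ≤ 1 := by nlinarith
  have n1 := num1 hL1 hT0.le hc (card_II hL1)
  have n2 := num2 hL1 he hT0.le
  refine ⟨_ ∪ _ ∪ _ ∪ _, (measure_union_le _ _).trans ((add_le_add ((measure_union_le _ _).trans (add_le_add
    ((measure_union_le _ _).trans (add_le_add (g1.trans (ENNReal.ofReal_le_ofReal n1)) (g2.trans (ENNReal.ofReal_le_ofReal n1))))
    (g3.trans (ENNReal.ofReal_le_ofReal n1)))) (g4.trans (ENNReal.ofReal_le_ofReal n2))).trans ?_), fun t ht hnot i hi => ?_⟩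
  · have hp : 0 ≤ L ^ (-(e ^ 2 / 2)) := by positivity
    rw [← ENNReal.ofReal_add (by positivity) (by positivity), ← ENNReal.ofReal_add (by positivity) (by positivity),
      ← ENNReal.ofReal_add (by positivity) (by positivity)]
    apply ENNReal.ofReal_le_ofReal
    have h624 : 624 ≤ max (max L0 3) 624 := le_max_right _ _
    have := mul_le_mul_of_nonneg_right (mul_le_mul_of_nonneg_right h624 hp) hT0.le
    linarith
  · rw [Set.mem_union, Set.mem_union, Set.mem_union, not_or, not_or, not_or] at hnot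
    obtain ⟨⟨⟨m1, m2⟩, m3⟩, m4⟩ := hnot
    have hiI : i ∈ II L := mem_II.mpr hi
    have p1 : ∀ Q : Finset ℕ, Q ⊆ QX (Xn n T L) → ∀ p ∈ Q, p.Prime := fun Q hQ p hp => (mem_QX.mp (hQ hp)).1
    have d1 : |DD n T L (low n T L) t i - DD n T L (low n T L) t 0| ≤ H := by
      rw [low_eq (p1 (low n T L) (Finset.filter_subset _ _))]
      by_contra h
      exact m1 ⟨ht, i, hiI, (not_le.mp h).le⟩
    have d2 : |DD n T L (l14 n q T L) t i| ≤ H := by
      rw [DD_eq (p1 (l14 n q T L) (Finset.filter_subset _ _))]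
      by_contra h
      exact m2 ⟨ht, i, hiI, (not_le.mp h).le⟩
    have d3 : |DD n T L (fin n T L) t i| ≤ H := by
      rw [DD_eq (p1 (fin n T L) (Finset.filter_subset _ _))]
      by_contra h
      exact m3 ⟨ht, i, hiI, (not_le.mp h).le⟩
    have d4 : |DD n T L (nlow n T L) t 0| ≤ H := by
      rw [DD_eq (p1 (nlow n T L) (Finset.filter_subset _ _))]
      by_contra h
      exact m4 ⟨ht, 0, Finset.mem_singleton_self _, (not_le.mp h).le⟩
    rw [split hn hq (by linarith) hL1, show 4 * e * Real.log L = 4 * H by rw [hH]; ring]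
    rw [abs_le] at d1 d2 d3 d4 ⊢
    constructor <;> linarith [d1.1, d1.2, d2.1, d2.2, d3.1, d3.2, d4.1, d4.2]

end Pool.Agent.Helper24.OR
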